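import Pool.Agent.H63.SEP.Stmts2

/-!
Project SEP, module SH1: a path through the tree of attempts gives a point without witness.
-/

set_option linter.unusedVariables false
set_option synthInstance.maxSize 100000

namespace SW.SEP

open SW

namespace H19

section SH1sec

variable {M : Type} [SetStr M] [ZF M]

/-- a natural number above two given ones -/
theorem om_two {a b : M} (ha : E a om) (hb : E b om) : ∃ c, E c om ∧ Sub a c ∧ Sub b c := by
  rcases (Ord_nat ha).tri (Ord_nat hb) with h | h | h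
  · exact ⟨b, hb, (Ord_nat hb).sub_of_mem h, Sub.refl b⟩
  · exact ⟨b, hb, by rw [h]; exact Sub.refl b, Sub.refl b⟩
  · exact ⟨a, ha, Sub.refl a, (Ord_nat ha).sub_of_mem h⟩

theorem app_eq {f x y : M} (h : E (opair x y) f) (hu : ∀ y', E (opair x y') f → y' = y) :
    app f x = y := the_eq (p := fun w => E (opair x w) f) h hu

/-- a property of natural numbers preserved by successors holds above each number -/
theorem mono_om (g : M → M) (hg : Fn1 g) (hs : ∀ n, E n om → Sub (g n) (g (suc n))) :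
    ∀ m, E m om → ∀ n, E n om → Sub n m → Sub (g n) (g m) := by
  refine om_ind (C := fun m : M => ∀ n : M, E n om → Sub n m → Sub (g n) (g m)) ?_ ?_ ?_
  · have h1 : DfT (fun w : Fin 2 → M => g (w 0)) := hg.ren ![0]
    have h2 : DfT (fun w : Fin 2 → M => g (w 1)) := hg.ren ![1]
    infer_instance
  · intro n hn h
    have : n = emp := eq_emp fun z hz => not_mem_emp z (h z hz)
    rw [this]
    exact Sub.refl _
  · intro m hm ih n hn h
    rw [(Ord_nat hn).sub_iff (Ord_nat (suc_mem_om hm))] at h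
    rcases h with h | rfl
    · rw [mem_suc] at h
      exact Sub.trans (ih n hn (((Ord_nat hn).sub_iff (Ord_nat hm)).2 h)) (hs m hm)
    · exact Sub.refl _

end SH1sec

end H19

open H19

theorem sep_sh1 (hS : SQFStmt) : SH1Stmt := by
  intro M _ _ T x y c d hc hd hx hy hB
  have S := hS M
  obtain ⟨f, f0, hf⟩ := hB
  -- components of the path
  have cpt : ∀ n, E n om → ∃ a ρ a' ρ', app f n = opair a ρ ∧ app f (suc n) = opair a' ρ' ∧
      E a (SQ om) ∧ E ρ (SQ d) ∧ E a' (SQ om) ∧ E ρ' (SQ d) ∧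
      Sub a a' ∧ Sub ρ ρ' ∧ dmn a' = suc (dmn a) ∧ dmn ρ' = suc (dmn ρ) ∧
      AttP T x y c a' ρ' := by
    intro n hn
    obtain ⟨h1, a, ρ, a', ρ', e1, e2, h2, h3, h4, h5, h6⟩ := hf n hn
    have h1' := (hf (suc n) (suc_mem_om hn)).1
    rw [e1, mem_prod] at h1
    rw [e2, mem_prod] at h1'
    exact ⟨a, ρ, a', ρ', e1, e2, h1.1, h1.2, h1'.1, h1'.2, h2, h3, h4, h5, h6⟩
  have A0 : p1 (app f emp) = emp := by rw [f0, p1_opair]
  have P0 : p2 (app f emp) = emp := by rw [f0, p2_opair]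
  have Asq : ∀ n, E n om → E (p1 (app f n)) (SQ om) := by
    intro n hn
    obtain ⟨a, ρ, a', ρ', e1, -, h1, -⟩ := cpt n hn
    rw [e1, p1_opair]
    exact h1
  have Psq : ∀ n, E n om → E (p2 (app f n)) (SQ d) := by
    intro n hn
    obtain ⟨a, ρ, a', ρ', e1, -, -, h1, -⟩ := cpt n hn
    rw [e1, p2_opair]
    exact h1
  have Amon := mono_om (fun n : M => p1 (app f n)) inferInstance (by
    intro n hn
    obtain ⟨a, ρ, a', ρ', e1, e2, -, -, -, -, h1, -⟩ := cpt n hn
    simp only [e1, e2, p1_opair]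
    exact h1)
  have Pmon := mono_om (fun n : M => p2 (app f n)) inferInstance (by
    intro n hn
    obtain ⟨a, ρ, a', ρ', e1, e2, -, -, -, -, -, h1, -⟩ := cpt n hn
    simp only [e1, e2, p2_opair]
    exact h1)
  have dmE : dmn (emp : M) = emp := by
    refine eq_emp fun z hz => ?_
    rw [mem_dmn] at hz
    obtain ⟨y, hy⟩ := hz
    exact not_mem_emp _ hy
  have Adm : ∀ n, E n om → dmn (p1 (app f n)) = n := by
    refine om_ind (C := fun n : M => dmn (p1 (app f n)) = n) inferInstance ?_ ?_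
    · rw [A0, dmE]
    · intro n hn ih
      obtain ⟨a, ρ, a', ρ', e1, e2, -, -, -, -, -, -, h1, -⟩ := cpt n hn
      rw [e1, p1_opair] at ih
      rw [e2, p1_opair, h1, ih]
  have Pdm : ∀ n, E n om → dmn (p2 (app f n)) = n := by
    refine om_ind (C := fun n : M => dmn (p2 (app f n)) = n) inferInstance ?_ ?_
    · rw [P0, dmE]
    · intro n hn ih
      obtain ⟨a, ρ, a', ρ', e1, e2, -, -, -, -, -, -, -, h1, -⟩ := cpt n hn
      rw [e1, p2_opair] at ih
      rw [e2, p2_opair, h1, ih]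
  -- the point
  have hw' : ∃ w : M, ∀ z, E z w ↔ ∃ n, E n om ∧ E z (p1 (app f n)) := by
    refine ⟨sUn (img om (fun n => p1 (app f n))), fun z => ?_⟩
    rw [mem_sUn]
    constructor
    · rintro ⟨u, hu, hz⟩
      rw [mem_img] at hu
      obtain ⟨n, hn, rfl⟩ := hu
      exact ⟨n, hn, hz⟩
    · rintro ⟨n, hn, hz⟩
      exact ⟨_, mem_img.2 ⟨n, hn, rfl⟩, hz⟩
  obtain ⟨w, hw⟩ := hw'
  have Aw : ∀ n, E n om → Sub (p1 (app f n)) w := fun n hn z hz => (hw z).2 ⟨n, hn, hz⟩
  have hwf : Fnc om om w := by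
    refine ⟨fun z hz => ?_, fun a ha => ?_, fun a b b' h h' => ?_⟩
    · rw [hw] at hz
      obtain ⟨n, hn, hz⟩ := hz
      obtain ⟨h1, h2⟩ := S.dm (Asq n hn)
      obtain ⟨a, b, ha, hb, rfl⟩ := h2.1 z hz
      exact ⟨a, b, Trans_om _ h1 a ha, hb, rfl⟩
    · obtain ⟨h1, h2⟩ := S.dm (Asq (suc a) (suc_mem_om ha))
      rw [Adm (suc a) (suc_mem_om ha)] at h2
      obtain ⟨b, hb⟩ := h2.2.1 a (by simp)
      exact ⟨b, Aw _ (suc_mem_om ha) _ hb⟩
    · rw [hw] at h h'
      obtain ⟨n, hn, h⟩ := h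
      obtain ⟨n', hn', h'⟩ := h'
      obtain ⟨m, hm, h1, h2⟩ := om_two hn hn'
      exact (S.dm (Asq m hm)).2.2.2 a b b' (Amon m hm n hn h1 _ h) (Amon m hm n' hn' h2 _ h')
  have wres : ∀ n, E n om → p1 (app f n) = res w n := by
    intro n hn
    have := (S.sub (Asq n hn) hwf (Aw n hn)).2
    rw [Adm n hn] at this
    exact this
  refine ⟨w, hwf, ?_⟩
  rintro ⟨v, hv, hvT⟩
  -- the set of ranks
  have hC : Cl (fun z : M => ∃ m k n, E m om ∧ E k om ∧ E n om ∧ app c k = res v m ∧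
      E (opair k z) (p2 (app f n))) := inferInstance
  have hex : ∃ z : M, ∃ m k n, E m om ∧ E k om ∧ E n om ∧ app c k = res v m ∧
      E (opair k z) (p2 (app f n)) := by
    obtain ⟨k, hk, hk'⟩ := hc.2 (res v emp) (S.rsi hv emp_mem_om).1
    obtain ⟨z, hz⟩ : ∃ z, E (opair k z) (p2 (app f (suc k))) := by
      have := (S.dm (Psq (suc k) (suc_mem_om hk))).2
      rw [Pdm (suc k) (suc_mem_om hk)] at this
      exact this.2.1 k (by simp)
    exact ⟨z, emp, k, suc k, emp_mem_om, hk, suc_mem_om hk, hk', hz⟩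
  obtain ⟨z, ⟨m, k, n, hm, hk, hn, hkm, hz⟩, hmin⟩ := mem_min hC hex
  obtain ⟨l, hl, hlm⟩ := hc.2 (res v (suc m)) (S.rsi hv (suc_mem_om hm)).1
  -- a large number
  obtain ⟨c1, hc1, a1, a2⟩ := om_two hn (suc_mem_om hk)
  obtain ⟨c2, hc2, a3, a4⟩ := om_two (suc_mem_om hl) (suc_mem_om hm)
  obtain ⟨Q, hQ, a5, a6⟩ := om_two hc1 hc2
  have b1 : Sub n Q := Sub.trans a1 a5
  have b2 : E k Q := a5 k (a2 k (by simp))
  have b3 : E l Q := a6 l (a3 l (by simp))
  have b4 : Sub (suc m) Q := Sub.trans a4 a6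
  obtain rfl | ⟨q, hq, rfl⟩ := om_cases hQ
  · exact not_mem_emp _ b2
  obtain ⟨a, ρ, a', ρ', e1, e2, -, -, ha', hρ', -, -, -, -, hatt⟩ := cpt q hq
  have ea : a' = res w (suc q) := by rw [← wres _ hQ, e2, p1_opair]
  have da : dmn a' = suc q := by
    have := Adm _ hQ
    rw [e2, p1_opair] at this
    exact this
  have dr : dmn ρ' = suc q := by
    have := Pdm _ hQ
    rw [e2, p2_opair] at this
    exact this
  have hρf : Fnc (suc q) d ρ' := by
    have := (S.dm hρ').2
    rw [dr] at this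
    exact this
  have hz' : E (opair k z) ρ' := by
    have := Pmon _ hQ n hn b1 _ hz
    simp only [e2, p2_opair] at this
    exact this
  have zk : app ρ' k = z := (S.fapp' hρf hz').2.2
  have dl : dmn (app c l) = suc m := by rw [hlm]; exact (S.rsi hv (suc_mem_om hm)).2
  have dk : dmn (app c k) = m := by rw [hkm]; exact (S.rsi hv hm).2
  have step := hatt.2 k l (by rw [da]; exact b2) (by rw [da]; exact b3)
    (by rw [dl, da]; exact b4)
    (by
      rw [hkm, hlm]
      intro u hu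
      rw [mem_res] at hu ⊢
      obtain ⟨h1, x1, y1, h2, h3⟩ := hu
      exact ⟨h1, x1, y1, by simp [h2], h3⟩)
    (by rw [dl, dk])
    (by
      intro i hi hi'
      rw [dl] at hi'
      rw [hlm, ea]
      unfold q4
      rw [S.rr (Sub.trans hi' b4), S.rr hi']
      exact hvT i hi)
  rw [zk] at step
  refine hmin _ step ⟨suc m, l, suc q, suc_mem_om hm, hl, hQ, hlm, ?_⟩
  rw [e2, p2_opair]
  exact (S.fapp hρf b3).1

end SW.SEP
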