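import Pool.Agent.H63.SEP.Stmts2

/-!
Project SEP, module SH2: a point without witness gives a path through the tree of attempts.
-/

set_option linter.unusedVariables false
set_option synthInstance.maxSize 100000

namespace SW.SEP

open SW

theorem sep_sh2 (hS : SQFStmt) (hD : DICStmt) : SH2Stmt := by
  intro M _ _ T x y c w hc hx hy hw hno
  have S := hS M
  have two' : ∀ {a b : M}, E a om → E b om → ∃ c, E c om ∧ Sub a c ∧ Sub b c := by
    intro a b ha hb
    rcases (Ord_nat ha).tri (Ord_nat hb) with h | h | h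
    · exact ⟨b, hb, (Ord_nat hb).sub_of_mem h, Sub.refl b⟩
    · exact ⟨b, hb, by rw [h]; exact Sub.refl b, Sub.refl b⟩
    · exact ⟨a, ha, Sub.refl a, (Ord_nat ha).sub_of_mem h⟩
  have dmE : dmn (emp : M) = emp := by
    refine eq_emp fun z hz => ?_
    rw [mem_dmn] at hz
    obtain ⟨y, hy⟩ := hz
    exact not_mem_emp _ hy
  have rE : ∀ u : M, res u emp = emp := by
    intro u
    refine eq_emp fun z hz => ?_
    rw [mem_res] at hz
    obtain ⟨_, a, b, h, _⟩ := hz
    exact not_mem_emp _ h
  -- the tree of partial witnesses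
  let TW : M → Prop := fun t => ∀ m, E m om → Sub m (dmn t) → E (q4 m x y w t) T
  have hTW : Cl TW := by
    show Cl (fun t : M => ∀ m, E m om → Sub m (dmn t) → E (q4 m x y w t) T)
    unfold q4; infer_instance
  have hR : Cl2 (fun s t : M => TW t ∧ Sub s t ∧ dmn t = suc (dmn s)) := by
    show Cl2 (fun s t : M => (∀ m, E m om → Sub m (dmn t) → E (q4 m x y w t) T) ∧ Sub s t ∧
      dmn t = suc (dmn s))
    unfold q4; infer_instance
  have q4res : ∀ {t u m : M}, Sub m u → q4 m x y w (res t u) = q4 m x y w t := by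
    intro t u m h
    unfold q4
    rw [S.rr h]
  rcases hD M (SQ om) emp _ hR S.nil with ⟨f, f0, hf⟩ | ⟨U, r, hU, hU0, hUo, hUs⟩
  · -- a path gives a witness
    exfalso
    have dm : ∀ n, E n om → dmn (app f n) = n := by
      refine om_ind (C := fun n : M => dmn (app f n) = n) inferInstance ?_ ?_
      · rw [f0, dmE]
      · intro n hn ih
        rw [(hf n hn).2.2.2, ih]
    have mon : ∀ m, E m om → ∀ n, E n om → Sub n m → Sub (app f n) (app f m) := by
      refine om_ind (C := fun m : M => ∀ n : M, E n om → Sub n m →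
        Sub (app f n) (app f m)) inferInstance ?_ ?_
      · intro n hn h
        have : n = emp := eq_emp fun z hz => not_mem_emp z (h z hz)
        rw [this]
        exact Sub.refl _
      · intro m hm ih n hn h
        rw [(Ord_nat hn).sub_iff (Ord_nat (suc_mem_om hm))] at h
        rcases h with h | rfl
        · rw [mem_suc] at h
          exact Sub.trans (ih n hn (((Ord_nat hn).sub_iff (Ord_nat hm)).2 h)) (hf m hm).2.2.1
        · exact Sub.refl _
    have hv' : ∃ v : M, ∀ z, E z v ↔ ∃ n, E n om ∧ E z (app f n) := by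
      refine ⟨sUn (img om (fun n => app f n)), fun z => ?_⟩
      rw [mem_sUn]
      constructor
      · rintro ⟨u, hu, hz⟩
        rw [mem_img] at hu
        obtain ⟨n, hn, rfl⟩ := hu
        exact ⟨n, hn, hz⟩
      · rintro ⟨n, hn, hz⟩
        exact ⟨_, mem_img.2 ⟨n, hn, rfl⟩, hz⟩
    obtain ⟨v, hv⟩ := hv'
    have Av : ∀ n, E n om → Sub (app f n) v := fun n hn z hz => (hv z).2 ⟨n, hn, hz⟩
    have hvf : Fnc om om v := by
      refine ⟨fun z hz => ?_, fun a ha => ?_, fun a b b' h h' => ?_⟩
      · rw [hv] at hz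
        obtain ⟨n, hn, hz⟩ := hz
        obtain ⟨h1, h2⟩ := S.dm (hf n hn).1
        obtain ⟨a, b, ha, hb, rfl⟩ := h2.1 z hz
        exact ⟨a, b, Trans_om _ h1 a ha, hb, rfl⟩
      · obtain ⟨h1, h2⟩ := S.dm (hf (suc a) (suc_mem_om ha)).1
        rw [dm (suc a) (suc_mem_om ha)] at h2
        obtain ⟨b, hb⟩ := h2.2.1 a (by simp)
        exact ⟨b, Av _ (suc_mem_om ha) _ hb⟩
      · rw [hv] at h h'
        obtain ⟨n, hn, h⟩ := h
        obtain ⟨n', hn', h'⟩ := h'
        obtain ⟨m, hm, h1, h2⟩ := two' hn hn'
        exact (S.dm (hf m hm).1).2.2.2 a b b' (mon m hm n hn h1 _ h) (mon m hm n' hn' h2 _ h')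
    have vres : ∀ n, E n om → app f n = res v n := by
      intro n hn
      have := (S.sub (hf n hn).1 hvf (Av n hn)).2
      rw [dm n hn] at this
      exact this
    refine hno ⟨v, hvf, fun n hn => ?_⟩
    have h1 := (hf n hn).2.1 n hn
    rw [dm _ (suc_mem_om hn)] at h1
    have h2 := h1 (fun z hz => by simp [hz])
    rw [vres _ (suc_mem_om hn), q4res (fun z hz => by simp [hz])] at h2
    exact h2
  · -- partial witnesses are in U
    have inU : ∀ n, E n om → ∀ t, E t (SQ om) → dmn t = n → TW t → E t U := by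
      refine om_ind (C := fun n : M => ∀ t : M, E t (SQ om) → dmn t = n → TW t → E t U)
        ?_ ?_ ?_
      · have := hTW.comp1 (n := 2) (t := fun w : Fin 2 → M => w 0) inferInstance
        show Cl (fun n : M => ∀ t : M, E t (SQ om) → dmn t = n →
          (∀ m, E m om → Sub m (dmn t) → E (q4 m x y w t) T) → E t U)
        unfold q4
        infer_instance
      · intro t ht h0 _
        have : t = emp := by
          refine eq_emp fun z hz => ?_
          obtain ⟨a, b, ha, hb, rfl⟩ := (S.dm ht).2.1 z hz
          rw [h0] at ha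
          exact not_mem_emp _ ha
        rw [this]
        exact hU0
      · intro n hn ih t ht hd hT
        have hsub : Sub n (dmn t) := by
          rw [hd]
          exact fun z hz => by simp [hz]
        obtain ⟨h1, h2⟩ := S.rs ht hn hsub
        have hT' : TW (res t n) := by
          intro m hm hmn
          rw [h2] at hmn
          rw [q4res hmn]
          exact hT m hm (Sub.trans hmn hsub)
        have h3 := ih (res t n) h1 h2 hT'
        refine (hUs (res t n) t h3 ht ⟨hT, fun z hz => (mem_res.1 hz).1, ?_⟩).1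
        rw [h2, hd]
    have inU' : ∀ t, E t (SQ om) → TW t → E t U := fun t ht hT =>
      inU _ (S.dm ht).1 t ht rfl hT
    -- the ordinal
    obtain ⟨d, hd, hdm⟩ := exists_ord_gt (ins emp (img U (fun s => app r s)))
    have hd0 : E emp d := hdm _ (by simp) Ord_emp
    have hdr : ∀ s, E s U → E (app r s) d := fun s hs =>
      hdm _ (by rw [mem_ins, mem_img]; exact Or.inl ⟨s, hs, rfl⟩) (hUo s hs)
    -- the rank function
    have hg : ∃ ρ : M, Fnc om d ρ ∧ ∀ k, E k om → TW (app c k) →
        E (opair k (app r (app c k))) ρ := by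
      let g : M → M := fun k => the (fun z => ((∀ m, E m om → Sub m (dmn (app c k)) →
        E (q4 m x y w (app c k)) T) ∧ z = app r (app c k)) ∨
        (¬ (∀ m, E m om → Sub m (dmn (app c k)) → E (q4 m x y w (app c k)) T) ∧ z = emp))
      have hgd : Fn1 g := by
        show Fn1 (fun k : M => the (fun z => ((∀ m, E m om → Sub m (dmn (app c k)) →
        E (q4 m x y w (app c k)) T) ∧ z = app r (app c k)) ∨
        (¬ (∀ m, E m om → Sub m (dmn (app c k)) → E (q4 m x y w (app c k)) T) ∧ z = emp)))
        unfold q4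
        infer_instance
      have g1 : ∀ k, TW (app c k) → g k = app r (app c k) := by
        intro k hk
        refine the_eq (Or.inl ⟨hk, rfl⟩) ?_
        rintro z (⟨_, h⟩ | ⟨h, _⟩)
        · exact h
        · exact absurd hk h
      have g2 : ∀ k, ¬ TW (app c k) → g k = emp := by
        intro k hk
        refine the_eq (Or.inr ⟨hk, rfl⟩) ?_
        rintro z (⟨h, _⟩ | ⟨_, h⟩)
        · exact absurd h hk
        · exact h
      refine ⟨gr om g, S.fgr g hgd fun k hk => ?_, fun k hk hT => ?_⟩
      · by_cases hT : TW (app c k)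
        · rw [g1 k hT]
          exact hdr _ (inU' _ (hc.1 k hk) hT)
        · rw [g2 k hT]
          exact hd0
      · rw [opair_mem_gr hgd]
        exact ⟨hk, (g1 k hT).symm⟩
    obtain ⟨ρ, hρ, hρk⟩ := hg
    have appg : ∀ n, E n om → app (gr om (fun n => opair (res w n) (res ρ n))) n =
        opair (res w n) (res ρ n) := fun n hn => app_gr inferInstance hn
    refine ⟨d, hd, gr om (fun n => opair (res w n) (res ρ n)), ?_, fun n hn => ⟨?_, ?_⟩⟩
    · rw [appg _ emp_mem_om, rE, rE]
    · rw [appg n hn, mem_prod]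
      exact ⟨(S.rsi hw hn).1, (S.rsi hρ hn).1⟩
    · have hsn := suc_mem_om hn
      have rmon : ∀ u : M, Sub (res u n) (res u (suc n)) := by
        intro u z hz
        rw [mem_res] at hz ⊢
        obtain ⟨h1, a, b, h2, h3⟩ := hz
        exact ⟨h1, a, b, by simp [h2], h3⟩
      rw [appg n hn, appg _ hsn]
      refine ⟨res w n, res ρ n, res w (suc n), res ρ (suc n), rfl, rfl, rmon w, rmon ρ, ?_, ?_,
        ?_, ?_⟩
      · rw [(S.rsi hw hn).2, (S.rsi hw hsn).2]
      · rw [(S.rsi hρ hn).2, (S.rsi hρ hsn).2]
      · rw [(S.rsi hw hsn).2, (S.rsi hρ hsn).2]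
      · intro k l hk hl hl1 hkl hdkl hatt
        rw [(S.rsi hw hsn).2] at hk hl hl1
        have hk' := Trans_om _ hsn k hk
        have hl' := Trans_om _ hsn l hl
        have hcl : TW (app c l) := by
          intro m hm hm'
          have h1 := hatt m hm hm'
          have h2 : q4 m x y (res w (suc n)) (app c l) = q4 m x y w (app c l) := by
            unfold q4
            rw [S.rr (v := w) (Sub.trans hm' hl1)]
          rw [h2] at h1
          exact h1
        have hck : TW (app c k) := by
          intro m hm hm'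
          obtain ⟨h1, h2⟩ := S.sub (hc.1 k hk') (S.dm (hc.1 l hl')).2 hkl
          rw [h2, q4res hm']
          exact hcl m hm (Sub.trans hm' h1)
        have hrk := (hUs (app c k) (app c l) (inU' _ (hc.1 k hk') hck) (hc.1 l hl')
          ⟨hcl, hkl, hdkl⟩).2
        have hfr : Fnc (suc n) d (res ρ (suc n)) := by
          have := (S.dm (S.rsi hρ hsn).1).2
          rw [(S.rsi hρ hsn).2] at this
          exact this
        have ek : app (res ρ (suc n)) k = app r (app c k) :=
          (S.fapp' hfr (opair_mem_res.2 ⟨hρk k hk' hck, hk⟩)).2.2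
        have el : app (res ρ (suc n)) l = app r (app c l) :=
          (S.fapp' hfr (opair_mem_res.2 ⟨hρk l hl' hcl, hl⟩)).2.2
        rw [ek, el]
        exact hrk

end SW.SEP
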