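import Pool.Agent.H63.SEP.Stmts2

/-!
Project SEP, module SHO: Shoenfield absoluteness, upwards.
-/

set_option linter.unusedVariables false
set_option synthInstance.maxSize 100000

namespace SW.SEP

open SW

namespace H19

/-- a countable nonempty set has an enumeration -/
theorem exists_EnSQ {M : Type} [SetStr M] [ZF M] (h : Cb (SQ om : M)) (h0 : E emp (SQ om : M)) :
    ∃ c : M, EnSQ c := by
  obtain ⟨f, h1, h2⟩ := h
  let g : M → M := fun k => the (fun s => (E s (SQ om) ∧ E (opair s k) f) ∨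
    ((¬ ∃ s', E s' (SQ om) ∧ E (opair s' k) f) ∧ s = emp))
  have hg : Fn1 g := by
    show Fn1 (fun k : M => the (fun s => (E s (SQ om) ∧ E (opair s k) f) ∨
      ((¬ ∃ s', E s' (SQ om) ∧ E (opair s' k) f) ∧ s = emp)))
    infer_instance
  have g1 : ∀ k s, E k om → E s (SQ om) → E (opair s k) f → g k = s := by
    intro k s hk hs hsk
    refine the_eq (Or.inl ⟨hs, hsk⟩) ?_
    rintro z (⟨h3, h4⟩ | ⟨h3, _⟩)
    · exact h2 z s k h3 hs hk h4 hsk
    · exact absurd ⟨s, hs, hsk⟩ h3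
  have g2 : ∀ k, E k om → E (g k) (SQ om) := by
    intro k hk
    by_cases h3 : ∃ s, E s (SQ om) ∧ E (opair s k) f
    · obtain ⟨s, hs, hsk⟩ := h3
      rw [g1 k s hk hs hsk]
      exact hs
    · have : g k = emp := by
        refine the_eq (Or.inr ⟨h3, rfl⟩) ?_
        rintro z (⟨h4, h5⟩ | ⟨_, h4⟩)
        · exact absurd ⟨z, h4, h5⟩ h3
        · exact h4
      rw [this]
      exact h0
  refine ⟨gr om g, fun k hk => ?_, fun s hs => ?_⟩
  · rw [app_gr hg hk]
    exact g2 k hk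
  · obtain ⟨k, hk, hsk⟩ := h1 s hs
    exact ⟨k, hk, by rw [app_gr hg hk, g1 k s hk hs hsk]⟩

end H19

open H19

theorem sep_sho (hT : TEFStmt) (hG : TEGStmt) (hS : SQFStmt) (hC : CTSStmt) (hB : BRGStmt)
    (h1 : SH1Stmt) (h2 : SH2Stmt) : SHOStmt := by
  intro K N _ _ _ _ j hj ho T x hx
  have t := hT K N j hj
  have g := hG K N j hj
  obtain ⟨hx1, y, hy, hw⟩ := hx
  obtain ⟨c, hc⟩ := exists_EnSQ (M := K) (hC K).2.2.2.1 (hS K).nil
  have omj : ∀ {n : K}, E (j n) om ↔ E n om := by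
    intro n
    rw [← t.om, hj.mem]
  have fj : ∀ {v : K}, Fnc om om v → Fnc om om (j v) := by
    intro v hv
    have := t.fnc.2 hv
    rw [t.om] at this
    exact this
  have hcj : EnSQ (j c) := by
    constructor
    · intro k hk
      rw [← t.om, t.mem'] at hk
      obtain ⟨k, hk, rfl⟩ := hk
      rw [← t.app, ← t.om, ← g.SQ, hj.mem]
      exact hc.1 k hk
    · intro s hs
      rw [← t.om, ← g.SQ, t.mem'] at hs
      obtain ⟨s, hs, rfl⟩ := hs
      obtain ⟨k, hk, rfl⟩ := hc.2 s hs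
      exact ⟨j k, omj.2 hk, t.app.symm⟩
  refine ⟨fj hx1, j y, fj hy, fun w hwN => ?_⟩
  by_contra hcon
  have hno : ¬ ∃ v, Wit (j T) (j x) (j y) w v := by
    rintro ⟨v, hv, hv'⟩
    exact hcon ⟨v, hv, hv'⟩
  obtain ⟨d, hd, f, hf0, hf⟩ := h2 N (j T) (j x) (j y) (j c) w hcj (fj hx1) (fj hy) hwN hno
  obtain ⟨d, hd0, rfl⟩ := ho d hd
  have hcl : Cl2 (fun s u : K => AttR T x y c s u) := by
    unfold AttR AttP q4; infer_instance
  have q4j : ∀ {m a b e v : K}, q4 (j m) (j a) (j b) (j e) (j v) = j (q4 m a b e v) := by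
    intro m a b e v
    unfold q4
    rw [t.opair, t.opair, t.opair, t.res, t.res, t.res, t.res]
  have back : ∀ a b : K, E a (prod (SQ om) (SQ d)) → E b (prod (SQ om) (SQ d)) →
      AttR (j T) (j x) (j y) (j c) (j a) (j b) → AttR T x y c a b := by
    rintro a b ha hb ⟨u, ρ, u', ρ', e1, e2, s1, s2, d1, d2, hatt⟩
    rw [mem_prod'] at ha hb
    obtain ⟨a1, a2, -, -, rfl⟩ := ha
    obtain ⟨b1, b2, -, -, rfl⟩ := hb
    rw [t.opair, opair_inj] at e1 e2
    obtain ⟨rfl, rfl⟩ := e1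
    obtain ⟨rfl, rfl⟩ := e2
    rw [t.sub] at s1 s2
    rw [← t.dmn, ← t.dmn, ← t.suc] at d1 d2
    refine ⟨a1, a2, b1, b2, rfl, rfl, s1, s2, hj.inj _ _ d1, hj.inj _ _ d2, ?_, ?_⟩
    · have := hatt.1
      rw [← t.dmn, ← t.dmn] at this
      exact hj.inj _ _ this
    · intro k l hk hl hs1 hs2 hd3 hm
      have h3 := hatt.2 (j k) (j l) (by rw [← t.dmn, hj.mem]; exact hk)
        (by rw [← t.dmn, hj.mem]; exact hl)
        (by rw [← t.app, ← t.dmn, ← t.dmn, t.sub]; exact hs1)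
        (by rw [← t.app, ← t.app, t.sub]; exact hs2)
        (by rw [← t.app, ← t.app, ← t.dmn, ← t.dmn, ← t.suc, hd3])
        (by
          intro m hm0 hm1
          rw [← t.om, t.mem'] at hm0
          obtain ⟨m, hm0, rfl⟩ := hm0
          rw [← t.app, ← t.dmn, t.sub] at hm1
          rw [← t.app, q4j, hj.mem]
          exact hm m hm0 hm1)
      rw [← t.app, ← t.app, hj.mem] at h3
      exact h3
  have hemp : (opair emp emp : N) = j (opair emp emp) := by
    rw [t.opair, t.emp]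
  obtain ⟨f', hf'0, hf'⟩ := hB K N j hj (prod (SQ om) (SQ d)) (opair emp emp)
    (fun s u => AttR T x y c s u) (fun s u => AttR (j T) (j x) (j y) (j c) s u) hcl back
    (mem_prod.2 ⟨(hS K).nil, (hS K).nil⟩)
    ⟨f, by rw [hf0, hemp], fun n hn => ⟨by
      rw [t.prod, g.SQ, g.SQ, t.om]
      exact (hf n hn).1, (hf n hn).2⟩⟩
  obtain ⟨w', hw', hno'⟩ := h1 K T x y c d hc hd0 hx1 hy ⟨f', hf'0, hf'⟩
  obtain ⟨v, hv, hv'⟩ := hw w' hw'
  exact hno' ⟨v, hv, hv'⟩

end SW.SEP
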