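import Pool.Agent.H63.SEP.Stmts2

/-!
Project SEP, module TEF: transitive embeddings commute with simple operations.
-/

set_option linter.unusedVariables false
set_option synthInstance.maxSize 100000

namespace SW.SEP

open SW

namespace H19

section TEFsec

variable {K N : Type} [SetStr K] [ZF K] [SetStr N] [ZF N] {j : K → N}

omit [ZF K] [ZF N] in
theorem te_mem (hj : TEmb j) {z : N} {x : K} : E z (j x) ↔ ∃ y, E y x ∧ z = j y := by
  constructor
  · intro h
    obtain ⟨y, rfl⟩ := hj.tr z x h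
    exact ⟨y, (hj.mem y x).1 h, rfl⟩
  · rintro ⟨y, hy, rfl⟩
    exact (hj.mem y x).2 hy

theorem te_upair (hj : TEmb j) {a b : K} : j (upair a b) = upair (j a) (j b) := by
  refine ext fun z => ?_
  rw [te_mem hj, mem_upair]
  constructor
  · rintro ⟨y, hy, rfl⟩
    rw [mem_upair] at hy
    rcases hy with rfl | rfl
    · exact Or.inl rfl
    · exact Or.inr rfl
  · rintro (rfl | rfl)
    · exact ⟨a, by simp, rfl⟩
    · exact ⟨b, by simp, rfl⟩

theorem te_sing (hj : TEmb j) {a : K} : j (sing a) = sing (j a) := by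
  unfold sing
  exact te_upair hj

theorem te_opair (hj : TEmb j) {a b : K} : j (opair a b) = opair (j a) (j b) := by
  unfold opair
  rw [te_upair hj, te_sing hj, te_upair hj]

theorem te_emp (hj : TEmb j) : j (emp : K) = emp := by
  refine eq_emp fun z hz => ?_
  rw [te_mem hj] at hz
  obtain ⟨y, hy, _⟩ := hz
  exact not_mem_emp y hy

theorem te_bun (hj : TEmb j) {a b : K} : j (bun a b) = bun (j a) (j b) := by
  refine ext fun z => ?_
  rw [te_mem hj, mem_bun, te_mem hj, te_mem hj]
  constructor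
  · rintro ⟨y, hy, rfl⟩
    rw [mem_bun] at hy
    rcases hy with hy | hy
    · exact Or.inl ⟨y, hy, rfl⟩
    · exact Or.inr ⟨y, hy, rfl⟩
  · rintro (⟨y, hy, rfl⟩ | ⟨y, hy, rfl⟩)
    · exact ⟨y, by simp [hy], rfl⟩
    · exact ⟨y, by simp [hy], rfl⟩

theorem te_ins (hj : TEmb j) {a b : K} : j (ins a b) = ins (j a) (j b) := by
  unfold ins
  rw [te_bun hj, te_sing hj]

theorem te_suc (hj : TEmb j) {a : K} : j (suc a) = suc (j a) := by
  unfold suc
  exact te_ins hj

theorem te_om (hj : TEmb j) : j (om : K) = om := by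
  refine Sub.antisymm ?_ ?_
  · by_contra hcon
    have hex : ∃ x, E x (j (om : K)) ∧ ¬ E x (om : N) := by
      by_contra h
      push Not at h
      exact hcon fun z hz => h z hz
    obtain ⟨z, ⟨hz, hz'⟩, hmin⟩ := mem_min (M := N)
      (C := fun x => E x (j (om : K)) ∧ ¬ E x (om : N)) inferInstance hex
    rw [te_mem hj] at hz
    obtain ⟨y, hy, rfl⟩ := hz
    rcases om_cases hy with rfl | ⟨k, hk, rfl⟩
    · rw [te_emp hj] at hz'
      exact hz' emp_mem_om
    · rw [te_suc hj] at hz' hmin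
      have h1 : E (j k) (om : N) := by
        by_contra h2
        exact hmin (j k) (by simp) ⟨(hj.mem _ _).2 hk, h2⟩
      exact hz' (suc_mem_om h1)
  · intro z hz
    rw [mem_om] at hz
    refine hz _ ⟨?_, fun y hy => ?_⟩
    · rw [← te_emp hj]
      exact (hj.mem _ _).2 emp_mem_om
    · rw [te_mem hj] at hy
      obtain ⟨k, hk, rfl⟩ := hy
      rw [← te_suc hj]
      exact (hj.mem _ _).2 (suc_mem_om hk)

/-- components of pairs in the image are in the image -/
theorem te_pair (hj : TEmb j) {x y : N} {a : K} (h : E (opair x y) (j a)) :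
    ∃ x' y', x = j x' ∧ y = j y' ∧ E (opair x' y') a := by
  rw [te_mem hj] at h
  obtain ⟨t, ht, h⟩ := h
  have h1 : E (upair x y) (j t) := by rw [← h]; simp [opair]
  obtain ⟨s, hs⟩ := hj.tr _ _ h1
  have hx : E x (j s) := by rw [← hs]; simp
  have hy : E y (j s) := by rw [← hs]; simp
  obtain ⟨x', rfl⟩ := hj.tr _ _ hx
  obtain ⟨y', rfl⟩ := hj.tr _ _ hy
  refine ⟨x', y', rfl, rfl, ?_⟩
  rw [← te_opair hj] at h
  rw [hj.inj _ _ h]
  exact ht

theorem te_opm (hj : TEmb j) {x y a : K} : E (opair (j x) (j y)) (j a) ↔ E (opair x y) a := by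
  rw [← te_opair hj, hj.mem]

theorem te_prod (hj : TEmb j) {a b : K} : j (prod a b) = prod (j a) (j b) := by
  refine ext fun z => ?_
  rw [te_mem hj, mem_prod']
  constructor
  · rintro ⟨y, hy, rfl⟩
    rw [mem_prod'] at hy
    obtain ⟨u, v, hu, hv, rfl⟩ := hy
    exact ⟨j u, j v, (hj.mem _ _).2 hu, (hj.mem _ _).2 hv, te_opair hj⟩
  · rintro ⟨u, v, hu, hv, rfl⟩
    rw [te_mem hj] at hu hv
    obtain ⟨u, hu, rfl⟩ := hu
    obtain ⟨v, hv, rfl⟩ := hv
    exact ⟨opair u v, mem_prod.2 ⟨hu, hv⟩, (te_opair hj).symm⟩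

theorem te_sub (hj : TEmb j) {a b : K} : Sub (j a) (j b) ↔ Sub a b := by
  constructor
  · intro h z hz
    exact (hj.mem _ _).1 (h (j z) ((hj.mem _ _).2 hz))
  · intro h z hz
    rw [te_mem hj] at hz ⊢
    obtain ⟨y, hy, rfl⟩ := hz
    exact ⟨y, h y hy, rfl⟩

theorem te_res (hj : TEmb j) {a b : K} : j (res a b) = res (j a) (j b) := by
  refine ext fun z => ?_
  rw [te_mem hj, mem_res]
  constructor
  · rintro ⟨y, hy, rfl⟩
    rw [mem_res] at hy
    obtain ⟨h1, x, w, hx, rfl⟩ := hy
    exact ⟨(hj.mem _ _).2 h1, j x, j w, (hj.mem _ _).2 hx, te_opair hj⟩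
  · rintro ⟨h1, x, w, hx, rfl⟩
    obtain ⟨x, w, rfl, rfl, h2⟩ := te_pair hj h1
    rw [hj.mem] at hx
    exact ⟨opair x w, opair_mem_res.2 ⟨h2, hx⟩, (te_opair hj).symm⟩

theorem te_dmn (hj : TEmb j) {a : K} : j (dmn a) = dmn (j a) := by
  refine ext fun z => ?_
  rw [te_mem hj, mem_dmn]
  constructor
  · rintro ⟨y, hy, rfl⟩
    rw [mem_dmn] at hy
    obtain ⟨w, hw⟩ := hy
    exact ⟨j w, (te_opm hj).2 hw⟩
  · rintro ⟨y, hy⟩
    obtain ⟨x, w, rfl, rfl, h2⟩ := te_pair hj hy
    exact ⟨x, mem_dmn.2 ⟨w, h2⟩, rfl⟩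

theorem the_none {M : Type} [SetStr M] [ZF M] {p : M → Prop} (h : ¬ ∃! x, p x) :
    the p = emp := by
  unfold the
  rw [dif_neg h]

theorem te_app (hj : TEmb j) {a b : K} : j (app a b) = app (j a) (j b) := by
  by_cases h : ∃! w, E (opair b w) a
  · obtain ⟨w, hw, hu⟩ := h
    have h1 : app a b = w := the_eq (p := fun w => E (opair b w) a) hw hu
    have h2 : app (j a) (j b) = j w := by
      refine the_eq (p := fun w => E (opair (j b) w) (j a)) ((te_opm hj).2 hw) fun z hz => ?_
      obtain ⟨x, w', hx, rfl, h2⟩ := te_pair hj hz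
      have := hj.inj _ _ hx
      subst this
      rw [hu w' h2]
    rw [h1, h2]
  · have h1 : app a b = emp := the_none h
    have h2 : app (j a) (j b) = emp := by
      refine the_none ?_
      rintro ⟨z, hz, hu⟩
      obtain ⟨x, w', hx, rfl, h2⟩ := te_pair hj hz
      have := hj.inj _ _ hx
      subst this
      exact h ⟨w', h2, fun y hy => hj.inj _ _ (hu (j y) ((te_opm hj).2 hy))⟩
    rw [h1, h2, te_emp hj]

theorem te_trans (hj : TEmb j) {a : K} : Trans (j a) ↔ Trans a := by
  constructor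
  · intro h y hy
    exact (te_sub hj).1 (h (j y) ((hj.mem _ _).2 hy))
  · intro h y hy
    rw [te_mem hj] at hy
    obtain ⟨y, hy, rfl⟩ := hy
    exact (te_sub hj).2 (h y hy)

theorem te_ord (hj : TEmb j) {a : K} : Ord (j a) ↔ Ord a := by
  unfold Ord
  rw [te_trans hj]
  refine and_congr_right fun _ => ?_
  constructor
  · intro h y hy
    exact (te_trans hj).1 (h (j y) ((hj.mem _ _).2 hy))
  · intro h y hy
    rw [te_mem hj] at hy
    obtain ⟨y, hy, rfl⟩ := hy
    exact (te_trans hj).2 (h y hy)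

theorem te_fnc (hj : TEmb j) {a b v : K} : Fnc (j a) (j b) (j v) ↔ Fnc a b v := by
  constructor
  · rintro ⟨h1, h2, h3⟩
    refine ⟨fun z hz => ?_, fun x hx => ?_, fun x y y' h h' => ?_⟩
    · obtain ⟨x, y, hx, hy, h⟩ := h1 (j z) ((hj.mem _ _).2 hz)
      rw [te_mem hj] at hx hy
      obtain ⟨x, hx, rfl⟩ := hx
      obtain ⟨y, hy, rfl⟩ := hy
      rw [← te_opair hj] at h
      exact ⟨x, y, hx, hy, hj.inj _ _ h⟩
    · obtain ⟨y, hy⟩ := h2 (j x) ((hj.mem _ _).2 hx)
      obtain ⟨x', y', hx', rfl, h⟩ := te_pair hj hy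
      have := hj.inj _ _ hx'
      subst this
      exact ⟨y', h⟩
    · exact hj.inj _ _ (h3 _ _ _ ((te_opm hj).2 h) ((te_opm hj).2 h'))
  · rintro ⟨h1, h2, h3⟩
    refine ⟨fun z hz => ?_, fun x hx => ?_, fun x y y' h h' => ?_⟩
    · rw [te_mem hj] at hz
      obtain ⟨z, hz, rfl⟩ := hz
      obtain ⟨x, y, hx, hy, rfl⟩ := h1 z hz
      exact ⟨j x, j y, (hj.mem _ _).2 hx, (hj.mem _ _).2 hy, te_opair hj⟩
    · rw [te_mem hj] at hx
      obtain ⟨x, hx, rfl⟩ := hx
      obtain ⟨y, hy⟩ := h2 x hx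
      exact ⟨j y, (te_opm hj).2 hy⟩
    · obtain ⟨x, y, rfl, rfl, g1⟩ := te_pair hj h
      obtain ⟨x', y', hx', rfl, g2⟩ := te_pair hj h'
      have := hj.inj _ _ hx'
      subst this
      rw [h3 _ _ _ g1 g2]

theorem te_one (hj : TEmb j) : j (one : K) = one := by
  unfold one
  rw [te_sing hj, te_emp hj]

theorem te_two (hj : TEmb j) : j (two : K) = two := by
  unfold two
  rw [te_upair hj, te_sing hj, te_emp hj]

end TEFsec

end H19

open H19

theorem sep_tef : TEFStmt := by
  intro K N _ _ _ _ j hj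
  exact {
    mem' := te_mem hj
    opair := te_opair hj
    upair := te_upair hj
    sing := te_sing hj
    emp := te_emp hj
    ins := te_ins hj
    suc := te_suc hj
    bun := te_bun hj
    om := te_om hj
    one := te_one hj
    two := te_two hj
    prod := te_prod hj
    sub := te_sub hj
    res := te_res hj
    dmn := te_dmn hj
    app := te_app hj
    ord := te_ord hj
    fnc := te_fnc hj
    sx := by
      intro a b
      unfold sx
      rw [te_ins hj, te_opair hj, te_dmn hj]
    nonc := by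
      intro c
      unfold nonc
      rw [te_opair hj, te_emp hj]
    cdv := by
      intro a c' i c
      unfold cdv
      rw [te_opair hj, te_opair hj, te_opair hj, te_opair hj, te_one hj]
    LL := by
      unfold LL
      rw [te_bun hj, te_prod hj, te_prod hj, te_prod hj, te_prod hj, te_prod hj, te_sing hj,
        te_sing hj, te_emp hj, te_one hj, te_om hj, te_two hj]
    gR := by
      intro s τ b
      unfold gR
      rw [te_opair hj, te_opair hj, te_opair hj, te_opair hj, te_emp hj, te_two hj]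
    lV := by
      intro e v
      unfold lV
      rw [te_opair hj, te_opair hj, te_emp hj]
    lF := by
      intro e z i
      unfold lF
      rw [te_opair hj, te_opair hj, te_opair hj, te_one hj] }

end SW.SEP
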