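import Pool.Agent.H63.SEP.Stmts2

/-!
Project SEP, module TEG: transitive embeddings, finite sets and finite sequences.
-/

set_option linter.unusedVariables false
set_option synthInstance.maxSize 100000

namespace SW.SEP

open SW

namespace H19

section TEGsec

variable {K N : Type} [SetStr K] [ZF K] [SetStr N] [ZF N] {j : K → N}

theorem tg_fsub (hj : TEmb j) (t : TEFacts j) {a : K} {b : N} (hb : Fnt b) :
    Sub b (j a) → ∃ b', Fnt b' ∧ Sub b' a ∧ b = j b' := by
  have key : Sub b (j a) → E b (j (sep (pow a) (fun y => Fnt y))) := by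
    refine finF.ind (fun b => Sub b (j a) → E b (j (sep (pow a) (fun y => Fnt y))))
      inferInstance ?_ ?_ b hb
    · intro _
      rw [← t.emp, hj.mem, mem_sep, mem_pow]
      exact ⟨fun z hz => absurd hz (not_mem_emp z), finF.emp⟩
    · intro b x hb hx ih hs
      have h1 := ih fun z hz => hs z (by simp [hz])
      have h2 : E x (j a) := hs x (by simp)
      rw [t.mem'] at h1 h2
      obtain ⟨b', hb', rfl⟩ := h1
      obtain ⟨x', hx', rfl⟩ := h2
      rw [← t.ins, hj.mem, mem_sep, mem_pow]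
      rw [mem_sep, mem_pow] at hb'
      refine ⟨fun z hz => ?_, finF.ins hb'.2⟩
      rw [mem_ins] at hz
      rcases hz with hz | rfl
      · exact hb'.1 z hz
      · exact hx'
  intro hs
  have h := key hs
  rw [t.mem'] at h
  obtain ⟨b', hb', rfl⟩ := h
  rw [mem_sep, mem_pow] at hb'
  exact ⟨b', hb'.2, hb'.1, rfl⟩

theorem tg_pair (t : TEFacts j) (hj : TEmb j) {x y : N} {a : K} (h : E (opair x y) (j a)) :
    ∃ x' y', x = j x' ∧ y = j y' ∧ E (opair x' y') a := by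
  rw [t.mem'] at h
  obtain ⟨w, hw, h⟩ := h
  have h1 : E (upair x y) (j w) := by rw [← h]; simp [opair]
  obtain ⟨s, hs⟩ := hj.tr _ _ h1
  have hx : E x (j s) := by rw [← hs]; simp
  have hy : E y (j s) := by rw [← hs]; simp
  obtain ⟨x', rfl⟩ := hj.tr _ _ hx
  obtain ⟨y', rfl⟩ := hj.tr _ _ hy
  refine ⟨x', y', rfl, rfl, ?_⟩
  rw [← t.opair] at h
  rw [hj.inj _ _ h]
  exact hw

theorem tg_fnt_up (hj : TEmb j) (t : TEFacts j) {a : K} (h : Fnt a) : Fnt (j a) := by
  obtain ⟨n, hn, f, h1, h2, h3, h4⟩ := h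
  have op : ∀ {x y b : K}, E (opair (j x) (j y)) (j b) ↔ E (opair x y) b := by
    intro x y b
    rw [← t.opair, hj.mem]
  refine ⟨j n, ?_, j f, ?_, ?_, ?_, ?_⟩
  · rw [← t.om]
    exact (hj.mem _ _).2 hn
  · intro i hi
    rw [t.mem'] at hi
    obtain ⟨i, hi, rfl⟩ := hi
    obtain ⟨y, hy, hy'⟩ := h1 i hi
    exact ⟨j y, (hj.mem _ _).2 hy, op.2 hy'⟩
  · intro y hy
    rw [t.mem'] at hy
    obtain ⟨y, hy, rfl⟩ := hy
    obtain ⟨i, hi, hi'⟩ := h2 y hy
    exact ⟨j i, (hj.mem _ _).2 hi, op.2 hi'⟩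
  · intro i y y' hi hy hy'
    rw [t.mem'] at hi
    obtain ⟨i, hi, rfl⟩ := hi
    obtain ⟨i1, y1, e1, rfl, g1⟩ := tg_pair t hj hy
    obtain ⟨i2, y2, e2, rfl, g2⟩ := tg_pair t hj hy'
    have := hj.inj _ _ e1
    subst this
    have := hj.inj _ _ e2
    subst this
    rw [h3 _ _ _ hi g1 g2]
  · intro i i' y hi hi' hy g g'
    rw [t.mem'] at hi hi' hy
    obtain ⟨i, hi, rfl⟩ := hi
    obtain ⟨i', hi', rfl⟩ := hi'
    obtain ⟨y, hy, rfl⟩ := hy
    rw [h4 _ _ _ hi hi' hy (op.1 g) (op.1 g')]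

end TEGsec

/-- a finite sequence is a finite set -/
theorem fnt_seq {M : Type} [SetStr M] [ZF M] {n A v : M} (hn : E n om) (hv : Fnc n A v) :
    Fnt v := by
  refine finF.sub (finF.img (fun x => opair x (app v x)) inferInstance (finF.nat hn)) ?_
  intro z hz
  obtain ⟨x, y, hx, hy, rfl⟩ := hv.1 z hz
  rw [mem_img]
  refine ⟨x, hx, ?_⟩
  have : app v x = y := the_eq (p := fun w => E (opair x w) v) hz fun w hw => hv.2.2 _ _ _ hw hz
  rw [this]

end H19

open H19

theorem sep_teg (h : TEFStmt) : TEGStmt := by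
  intro K N _ _ _ _ j hj
  have t := h K N j hj
  have fs : ∀ {a : K} {b : N}, Fnt b → Sub b (j a) → ∃ b', Fnt b' ∧ Sub b' a ∧ b = j b' :=
    fun {a b} hb hs => tg_fsub hj t hb hs
  have sq : ∀ {a : K}, j (SQ a) = SQ (j a) := by
    intro a
    refine ext fun z => ?_
    rw [t.mem', mem_SQ]
    constructor
    · rintro ⟨v, hv, rfl⟩
      obtain ⟨n, hn, hv⟩ := mem_SQ.1 hv
      refine ⟨j n, ?_, t.fnc.2 hv⟩
      rw [← t.om]
      exact (hj.mem _ _).2 hn
    · rintro ⟨n, hn, hv⟩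
      rw [← t.om, t.mem'] at hn
      obtain ⟨n, hn, rfl⟩ := hn
      have hn' : E (j n) om := by
        rw [← t.om]
        exact (hj.mem _ _).2 hn
      have h1 : Fnt z := fnt_seq hn' hv
      have h2 : Sub z (j (prod n a)) := by
        intro w hw
        obtain ⟨x, y, hx, hy, rfl⟩ := hv.1 w hw
        rw [t.prod, mem_prod]
        exact ⟨hx, hy⟩
      obtain ⟨v, _, _, rfl⟩ := fs h1 h2
      exact ⟨v, mem_SQ.2 ⟨n, hn, t.fnc.1 hv⟩, rfl⟩
  exact {
    fnt := by
      intro a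
      refine ⟨fun ha => ?_, fun ha => tg_fnt_up hj t ha⟩
      obtain ⟨b', hb', _, e⟩ := fs ha (Sub.refl (j a))
      rw [hj.inj _ _ e]
      exact hb'
    fsub := fs
    SQ := sq
    NDS := by
      unfold NDS
      rw [sq, t.LL]
    Q4 := by
      unfold Q4
      rw [t.prod, t.prod, t.prod, sq, t.om] }

end SW.SEP
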